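import Pool.Agent.Helper6.ThriftyMain

/-!
# Programs from masks

(Moved here from helper6's `ThriftyTreeEvaluation`.)
-/

namespace Pool.Agent.Helper7.TEP

open Pool.Agent.Helper6.TreeEval

/-- The branching program obtained from a gadget for the root. -/
def ofGadget {h k : ℕ} (g : Gadget k (Unit × Unit × ZMod k) (Unit × Unit × ZMod k))
    (ht : ∀ s, (g.query s).InTree h) : NBP h k where
  State := g.S ⊕ Fin k
  start := Sum.inl (g.start ((), (), 0))
  label := Sum.elim (fun s => Sum.inl (g.query s)) Sum.inr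
  next := fun s v => match s with
    | Sum.inl s => {w | (∃ t, w = Sum.inl t ∧ Sum.inl t ∈ g.step s v) ∨
        ∃ c : Fin k, w = Sum.inr c ∧ Sum.inr ((), (), ((c : ℕ) : ZMod k)) ∈ g.step s v}
    | Sum.inr _ => ∅
  inTree := by
    rintro (s | s) q hq
    · cases hq
      exact ht s
    · exact absurd hq (by simp)

theorem comp_ofGadget {h k : ℕ} (g : Gadget k (Unit × Unit × ZMod k) (Unit × Unit × ZMod k))
    (ht : ∀ s, (g.query s).InTree h) (I : Inst k) (l : List (g.S ⊕ Fin k)) (v : Fin k) :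
    (ofGadget g ht).Comp I (ofGadget g ht).start l v ↔
      ∃ l', g.Runs I ((), (), 0) l' ((), (), ((v : ℕ) : ZMod k)) ∧
        l = l'.map Sum.inl ++ [Sum.inr v] := by
  have key1 : ∀ (u : (ofGadget g ht).State) (l : List (ofGadget g ht).State) (v : Fin k),
      (ofGadget g ht).Comp I u l v → ∀ s : g.S, u = Sum.inl s →
      ∃ l', g.Path I s l' ((), (), ((v : ℕ) : ZMod k)) ∧ l = l'.map Sum.inl ++ [Sum.inr v] := by
    intro u l v hc
    induction hc with
    | final hs =>
      rintro s rfl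
      exact absurd hs (by simp [ofGadget])
    | @step u t q l v hs ht' hl ih =>
      rintro s rfl
      have hq : g.query s = q := Sum.inl_injective hs
      subst hq
      rcases ht' with ⟨t', rfl, h2⟩ | ⟨c, rfl, h2⟩
      · obtain ⟨l', hp, rfl⟩ := ih t' rfl
        exact ⟨s :: l', Gadget.Path.cons h2 hp, rfl⟩
      · have key0 : ∀ (u : (ofGadget g ht).State) (l : List (ofGadget g ht).State) (v : Fin k),
            (ofGadget g ht).Comp I u l v → u = Sum.inr c → c = v ∧ l = [Sum.inr v] := by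
          intro u l v hc
          cases hc with
          | final hs' =>
            rintro rfl
            have hcv : c = v := Sum.inr_injective hs'
            subst hcv
            exact ⟨rfl, rfl⟩
          | step hs' _ _ =>
            rintro rfl
            exact absurd hs' (by simp [ofGadget])
        obtain ⟨rfl, rfl⟩ := key0 _ _ _ hl rfl
        exact ⟨[s], Gadget.Path.exit h2, rfl⟩
  have key2 : ∀ (s : g.S) (l' : List g.S) (b : Unit × Unit × ZMod k), g.Path I s l' b →
      ∀ v : Fin k, b = ((), (), ((v : ℕ) : ZMod k)) →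
      (ofGadget g ht).Comp I (Sum.inl s) (l'.map Sum.inl ++ [Sum.inr v]) v := by
    intro s l' b hp
    induction hp with
    | @exit s b hb =>
      rintro v rfl
      exact NBP.Comp.step (B := ofGadget g ht) (s := Sum.inl s) (t := Sum.inr v) rfl
        (Or.inr ⟨v, rfl, hb⟩) (NBP.Comp.final (B := ofGadget g ht) rfl)
    | @cons s t l b ht' _ ih =>
      rintro v rfl
      exact NBP.Comp.step (B := ofGadget g ht) (s := Sum.inl s) (t := Sum.inl t) rfl
        (Or.inl ⟨t, rfl, ht'⟩) (ih v rfl)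
  constructor
  · intro hc
    exact key1 _ _ _ hc _ rfl
  · rintro ⟨l', hp, rfl⟩
    exact key2 _ _ _ hp _ rfl

/-- The program obtained from a mask. -/
theorem exists_program (h k lam M₀ : ℕ) (hh : 1 ≤ h) (hk : 2 ≤ k) (hlam : 1 ≤ lam)
    (hkM : k ≤ M₀) (hmask : MaskProp k lam M₀) :
    ∃ B : NBP h k, B.Solves ∧ B.IsThrifty ∧ B.Unambiguous ∧
      Fintype.card B.State ≤ 2 * 5 ^ h * k ^ 2 * (lam ^ h * M₀) ^ 3 := by
  obtain ⟨n, rfl⟩ : ∃ n, h = n + 1 := ⟨h - 1, by omega⟩
  have : NeZero k := ⟨by omega⟩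
  obtain ⟨g, ht, hcard, hg⟩ := exists_add (n + 1) k lam M₀ (by omega) hlam hmask n []
    (by simp; omega) M₀ le_rfl Unit Unit (ZMod k) (by simp; omega) (by simp; omega)
    ((ZMod.card k).le.trans hkM) (fun v => ((v : ℕ) : ZMod k))
  have hroot : ∀ I : Inst k, I.nodeVal (n + 1) [] = I.val n [] := by
    intro I
    unfold Inst.nodeVal
    simp
  have hinj : ∀ v w : Fin k, ((v : ℕ) : ZMod k) = ((w : ℕ) : ZMod k) → v = w := by
    intro v w hvw
    rw [ZMod.natCast_eq_natCast_iff', Nat.mod_eq_of_lt v.2, Nat.mod_eq_of_lt w.2] at hvw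
    exact Fin.ext hvw
  have hall : ∀ (I : Inst k), ∃ l, ((ofGadget g ht).Comp I (ofGadget g ht).start l
      (I.nodeVal (n + 1) [])) ∧ (∀ s ∈ l, ∀ q, (ofGadget g ht).label s = Sum.inl q →
        q.Thrifty (n + 1) I) ∧ ∀ l' v, (ofGadget g ht).Comp I (ofGadget g ht).start l' v →
        l' = l ∧ v = I.nodeVal (n + 1) [] := by
    intro I
    obtain ⟨l, hl, hth, hu⟩ := hg I () () 0
    rw [zero_add] at hl
    refine ⟨l.map Sum.inl ++ [Sum.inr (I.nodeVal (n + 1) [])], ?_, ?_, ?_⟩
    · refine (comp_ofGadget g ht I _ _).2 ⟨l, ?_, rfl⟩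
      rw [hroot]
      exact hl
    · intro s hs q hq
      rcases List.mem_append.1 hs with h1 | h1
      · obtain ⟨s1, hs1, rfl⟩ := List.mem_map.1 h1
        have hq' : g.query s1 = q := Sum.inl_injective hq
        rw [← hq']
        exact hth s1 hs1
      · have h2 := List.mem_singleton.1 h1
        subst h2
        exact absurd hq (by simp [ofGadget])
    · intro l' v hv
      obtain ⟨l1, h1, rfl⟩ := (comp_ofGadget g ht I l' v).1 hv
      obtain ⟨rfl, h2⟩ := hu l1 _ h1
      simp only [Prod.mk.injEq, true_and, zero_add] at h2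
      have h3 := hinj _ _ h2
      rw [hroot]
      subst h3
      exact ⟨rfl, rfl⟩
  refine ⟨ofGadget g ht, ?_, ?_, ?_, ?_⟩
  · intro I
    obtain ⟨l, h1, _, h3⟩ := hall I
    exact ⟨⟨l, h1⟩, fun l' v hv => (h3 l' v hv).2⟩
  · intro I l v hl
    obtain ⟨l', h1, h2, h3⟩ := hall I
    obtain ⟨rfl, -⟩ := h3 l v hl
    exact h2
  · intro I l l' v v' hl hl'
    obtain ⟨l0, h1, h2, h3⟩ := hall I
    rw [(h3 l v hl).1, (h3 l' v' hl').1]
  · have hcS : Fintype.card (ofGadget g ht).State = Fintype.card g.S + k := by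
      change Fintype.card (g.S ⊕ Fin k) = _
      simp only [Fintype.card_sum, Fintype.card_fin]
    rw [hcS]
    have h1 : 5 ^ n * k ^ 2 * (lam ^ n * M₀) ^ 3 ≤ 5 ^ (n + 1) * k ^ 2 * (lam ^ (n + 1) * M₀) ^ 3 := by
      gcongr <;> omega
    have h2 : k ≤ 5 ^ (n + 1) * k ^ 2 * (lam ^ (n + 1) * M₀) ^ 3 := by
      calc k = 1 * k ^ 1 * (1 * 1) ^ 3 := by ring
        _ ≤ 5 ^ (n + 1) * k ^ 2 * (lam ^ (n + 1) * M₀) ^ 3 := by
          gcongr
          · exact Nat.one_le_pow _ _ (by norm_num)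
          · omega
          · norm_num
          · exact Nat.one_le_pow _ _ hlam
          · omega
    calc Fintype.card g.S + k ≤ 5 ^ (n + 1) * k ^ 2 * (lam ^ (n + 1) * M₀) ^ 3 +
          5 ^ (n + 1) * k ^ 2 * (lam ^ (n + 1) * M₀) ^ 3 := by
          exact Nat.add_le_add (hcard.trans h1) h2
      _ = 2 * 5 ^ (n + 1) * k ^ 2 * (lam ^ (n + 1) * M₀) ^ 3 := by ring

end Pool.Agent.Helper7.TEP
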