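import Pool.Agent.Helper7.TEP.Mask
import Pool.Agent.Helper7.TEP.Program

/-!
# The size of the programs
-/

namespace Pool.Agent.Helper7.TEP

open Finset Pool.Agent.Helper6.TreeEval

/-- The parameters of the first regime (`b = ⌈log₂ k⌉`, `L = ⌊log₂ b⌋ + 1`). -/
theorem regime_code (h k : ℕ) (hh : 1 ≤ h) (hk : 2 ≤ k) (b L : ℕ) (hb : b = Nat.clog 2 k)
    (hL : L = Nat.log 2 b + 1) (R : ℝ) (hR : R = Real.sqrt (h * b * L)) :
    ∃ lam M₀ E : ℕ, 1 ≤ lam ∧ k ≤ M₀ ∧ MaskProp k lam M₀ ∧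
      2 * 5 ^ h * k ^ 2 * (lam ^ h * M₀) ^ 3 ≤ 2 ^ E ∧ (E : ℝ) ≤ 61 * h + 29 * b + 48 * R := by
  have hb1 : 1 ≤ b := by rw [hb]; exact Nat.clog_pos (by norm_num) hk
  have hkb : k ≤ 2 ^ b := by rw [hb]; exact Nat.le_pow_clog (by norm_num) k
  have hL1 : 1 ≤ L := by omega
  have hh0 : (0 : ℝ) < h := by exact_mod_cast hh
  have hh1 : (1 : ℝ) ≤ h := by exact_mod_cast hh
  have hb0 : (0 : ℝ) < b := by exact_mod_cast hb1
  have hL0 : (0 : ℝ) < L := by exact_mod_cast hL1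
  have hR0 : 0 ≤ R := by rw [hR]; positivity
  have hR2 : R * R = h * b * L := by rw [hR]; exact Real.mul_self_sqrt (by positivity)
  set x : ℝ := R / h with hx
  have hx0 : 0 ≤ x := by positivity
  have hxh : x * h = R := by rw [hx]; field_simp
  have hxb : R * x = b * L := by
    have h1 : R * x * h = b * L * h := by
      rw [mul_assoc, hxh, hR2]
      ring
    exact mul_right_cancel₀ hh0.ne' h1
  have hxR : x ≤ R := by
    rw [← hxh]
    nlinarith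
  obtain ⟨s, hs⟩ : ∃ s : ℕ, s = 4 + ⌊x⌋₊ := ⟨_, rfl⟩
  have hs4 : 4 ≤ s := by rw [hs]; exact Nat.le_add_right _ _
  have hsx : (s : ℝ) ≤ 4 + x := by
    have := Nat.floor_le hx0
    rw [hs]
    push_cast
    linarith
  have hxs : x ≤ s := by
    have := Nat.lt_floor_add_one x
    rw [hs]
    push_cast
    linarith
  have hs0 : (0 : ℝ) < s := by exact_mod_cast (by omega : 0 < s)
  -- the dimension
  obtain ⟨d, hd1, hd2, hd3⟩ : ∃ d : ℕ, 4 * b ≤ d * s ∧ d * s < 4 * b + s ∧ 1 ≤ d := by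
    refine ⟨(4 * b + s - 1) / s, ?_, ?_, ?_⟩
    · have h1 := Nat.div_add_mod (4 * b + s - 1) s
      have h2 := Nat.mod_lt (4 * b + s - 1) (show 0 < s by omega)
      have h3 : (4 * b + s - 1) / s * s = s * ((4 * b + s - 1) / s) := mul_comm _ _
      omega
    · have h1 : (4 * b + s - 1) / s * s ≤ 4 * b + s - 1 := Nat.div_mul_le_self _ _
      omega
    · rw [Nat.le_div_iff_mul_le (by omega)]
      omega
  have hdb : d ≤ b := by
    by_contra hcon
    have h1 : (b + 1) * s ≤ d * s := Nat.mul_le_mul_right _ (by omega)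
    nlinarith
  have hbL : b < 2 ^ L := by rw [hL]; exact Nat.lt_pow_succ_log_self (by norm_num) b
  -- the code
  have hcode : k * (2 ^ d * (2 ^ s) ^ (d - (d / 2 + 1))) ≤ (2 ^ s) ^ d := by
    have h1 : b + d ≤ s * (d / 2 + 1) := by
      have h2 : d + 1 ≤ 2 * (d / 2 + 1) := by omega
      have h3 : s * (d + 1) ≤ s * (2 * (d / 2 + 1)) := Nat.mul_le_mul_left _ h2
      nlinarith
    have h4 : d = (d - (d / 2 + 1)) + (d / 2 + 1) := by omega
    calc k * (2 ^ d * (2 ^ s) ^ (d - (d / 2 + 1)))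
        ≤ 2 ^ b * (2 ^ d * (2 ^ s) ^ (d - (d / 2 + 1))) := Nat.mul_le_mul_right _ hkb
      _ = 2 ^ (b + d) * (2 ^ s) ^ (d - (d / 2 + 1)) := by rw [pow_add]; ring
      _ ≤ 2 ^ (s * (d / 2 + 1)) * (2 ^ s) ^ (d - (d / 2 + 1)) := by
          gcongr
          norm_num
      _ = (2 ^ s) ^ d := by
          conv_rhs => rw [h4]
          rw [pow_add, pow_mul]
          ring
  obtain ⟨c, hc⟩ := exists_code d (2 ^ s) (d / 2) k hcode (Nat.one_le_pow _ _ (by norm_num))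
  have hc' : ∀ a b, a ≠ b → 2 * (univ.filter (fun i => c a i = c b i)).card ≤ d := by
    intro a b hab
    have := hc a b hab
    omega
  have hmask := maskProp_code k d (2 ^ s) hd3 (Nat.one_le_pow _ _ (by norm_num)) c hc'
  -- the exponent `D`
  obtain ⟨D, hD1, hD2⟩ : ∃ D : ℕ, d ≤ 2 ^ D ∧ D * ((d + 1) * s) ≤ 12 * b * L := by
    rcases Nat.lt_or_ge d 2 with h1 | h1
    · exact ⟨0, by simpa using (by omega : d ≤ 1), by simp⟩
    · refine ⟨L, (hdb.trans hbL.le), ?_⟩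
      have h2 : (d + 1) * s ≤ 12 * b := by
        have h3 : (d + 1) * s ≤ 3 * (d - 1) * s := Nat.mul_le_mul_right _ (by omega)
        have h4 : (d - 1) * s + s = d * s := by
          obtain ⟨e, rfl⟩ : ∃ e, d = e + 1 := ⟨d - 1, by omega⟩
          simp only [Nat.add_sub_cancel]
          ring
        nlinarith
      calc L * ((d + 1) * s) ≤ L * (12 * b) := Nat.mul_le_mul_left _ h2
        _ = 12 * b * L := by ring
  refine ⟨8 * (2 ^ s) ^ 2, (d + 1) / 2 * (2 * d * (2 ^ s) ^ 2) ^ d,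
    1 + 3 * h + 2 * b + 3 * ((2 * s + 3) * h + (D + d * (D + 2 * s + 1))), ?_, ?_, hmask, ?_, ?_⟩
  · exact Nat.succ_le_of_lt (by positivity)
  · have h1 : 1 ≤ (d + 1) / 2 := by omega
    calc k ≤ 2 ^ b := hkb
      _ ≤ 2 ^ (s * d) := Nat.pow_le_pow_right (by norm_num) (by nlinarith)
      _ = (2 ^ s) ^ d := by rw [pow_mul]
      _ ≤ (2 * d * (2 ^ s) ^ 2) ^ d := by
          apply Nat.pow_le_pow_left
          have h2 : 1 ≤ 2 ^ s := Nat.one_le_pow _ _ (by norm_num)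
          nlinarith [Nat.mul_le_mul hd3 (Nat.mul_le_mul h2 h2)]
      _ = 1 * (2 * d * (2 ^ s) ^ 2) ^ d := (one_mul _).symm
      _ ≤ (d + 1) / 2 * (2 * d * (2 ^ s) ^ 2) ^ d := Nat.mul_le_mul_right _ h1
  · have h1 : (8 * (2 ^ s) ^ 2) ^ h = 2 ^ ((2 * s + 3) * h) := by
      rw [pow_mul]
      congr 1
      rw [← pow_mul, pow_add, mul_comm s 2]
      norm_num [mul_comm]
    have h2 : (d + 1) / 2 * (2 * d * (2 ^ s) ^ 2) ^ d ≤ 2 ^ (D + d * (D + 2 * s + 1)) := by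
      have h3 : (d + 1) / 2 ≤ 2 ^ D := by omega
      have h4 : 2 * d * (2 ^ s) ^ 2 ≤ 2 ^ (D + 2 * s + 1) := by
        calc 2 * d * (2 ^ s) ^ 2 ≤ 2 * 2 ^ D * (2 ^ s) ^ 2 := by gcongr
          _ = 2 ^ (D + 2 * s + 1) := by
              rw [pow_add, pow_add, mul_comm 2 s, pow_mul, pow_one]
              ring
      calc (d + 1) / 2 * (2 * d * (2 ^ s) ^ 2) ^ d ≤ 2 ^ D * (2 ^ (D + 2 * s + 1)) ^ d := by
            gcongr
        _ = 2 ^ (D + d * (D + 2 * s + 1)) := by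
            rw [← pow_mul, ← pow_add, mul_comm d]
    have h5 : 5 ^ h ≤ 2 ^ (3 * h) := by
      rw [pow_mul]
      exact Nat.pow_le_pow_left (by norm_num) h
    calc 2 * 5 ^ h * k ^ 2 * ((8 * (2 ^ s) ^ 2) ^ h * ((d + 1) / 2 * (2 * d * (2 ^ s) ^ 2) ^ d)) ^ 3
        ≤ 2 * 2 ^ (3 * h) * (2 ^ b) ^ 2 *
          (2 ^ ((2 * s + 3) * h) * 2 ^ (D + d * (D + 2 * s + 1))) ^ 3 := by
          rw [h1]
          gcongr
      _ = 2 ^ (1 + 3 * h + 2 * b + 3 * ((2 * s + 3) * h + (D + d * (D + 2 * s + 1)))) := by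
          rw [← pow_add, ← pow_mul, ← pow_mul, pow_add 2 (1 + 3 * h + 2 * b), pow_add 2 (1 + 3 * h),
            pow_add 2 1, pow_one, mul_comm b 2, mul_comm _ 3]
  · -- the real estimate
    have e1 : (d : ℝ) * s ≤ 4 * b + s := by exact_mod_cast hd2.le
    have e2 : (d : ℝ) ≤ b := by exact_mod_cast hdb
    have e3 : (D : ℝ) * (d + 1) ≤ 12 * R := by
      have h1 : (D : ℝ) * ((d + 1) * s) ≤ 12 * b * L := by exact_mod_cast hD2
      have h2 : (D : ℝ) * (d + 1) * s ≤ 12 * R * s := by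
        calc (D : ℝ) * (d + 1) * s = (D : ℝ) * ((d + 1) * s) := by ring
          _ ≤ 12 * b * L := h1
          _ = 12 * (R * x) := by rw [hxb]; ring
          _ ≤ 12 * (R * s) := by gcongr
          _ = 12 * R * s := by ring
      exact le_of_mul_le_mul_right h2 hs0
    have e4 : (s : ℝ) * h ≤ 4 * h + R := by
      calc (s : ℝ) * h ≤ (4 + x) * h := by gcongr
        _ = 4 * h + R := by rw [add_mul, hxh]
    have e5 : (s : ℝ) ≤ 4 + R := by linarith
    push_cast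
    nlinarith

/-- The parameters of the second regime. -/
theorem regime_vector (h k : ℕ) (hh : 1 ≤ h) (hk : 2 ≤ k) (b L : ℕ) (hb : b = Nat.clog 2 k)
    (hL : L = Nat.log 2 b + 1) (R : ℝ) (hR : R = Real.sqrt (h * b * L)) (hhL : h * L ≤ b) :
    ∃ lam M₀ E : ℕ, 1 ≤ lam ∧ k ≤ M₀ ∧ MaskProp k lam M₀ ∧
      2 * 5 ^ h * k ^ 2 * (lam ^ h * M₀) ^ 3 ≤ k ^ 5 * 2 ^ E ∧ (E : ℝ) ≤ 25 * h + 27 * R := by
  have hb1 : 1 ≤ b := by rw [hb]; exact Nat.clog_pos (by norm_num) hk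
  have hkb : k ≤ 2 ^ b := by rw [hb]; exact Nat.le_pow_clog (by norm_num) k
  have hbk : 2 ^ b ≤ 2 * k := by
    have h1 : 2 ^ (b - 1) < k := by
      have := Nat.pow_pred_clog_lt_self (b := 2) (by norm_num) hk
      rw [hb]
      simpa using this
    calc 2 ^ b = 2 * 2 ^ (b - 1) := by rw [← pow_succ']; congr 1; omega
      _ ≤ 2 * k := by omega
  have hL1 : 1 ≤ L := by omega
  have hh0 : (0 : ℝ) < h := by exact_mod_cast hh
  have hh1 : (1 : ℝ) ≤ h := by exact_mod_cast hh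
  have hb0 : (0 : ℝ) < b := by exact_mod_cast hb1
  have hL0 : (0 : ℝ) < L := by exact_mod_cast hL1
  have hL1' : (1 : ℝ) ≤ L := by exact_mod_cast hL1
  have hR0 : 0 ≤ R := by rw [hR]; positivity
  have hR2 : R * R = h * b * L := by rw [hR]; exact Real.mul_self_sqrt (by positivity)
  have hhLb : (h : ℝ) * L ≤ b := by exact_mod_cast hhL
  set y : ℝ := R / L with hy
  have hyL : y * L = R := by rw [hy]; field_simp
  have hy2 : y * R = h * b := by
    have h1 : y * R * L = h * b * L := by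
      rw [mul_right_comm, hyL, hR2]
    exact mul_right_cancel₀ hL0.ne' h1
  have hhLR : (h : ℝ) * L ≤ R := by
    by_contra hcon
    push Not at hcon
    have h1 : R * R < (h * L) * (h * L) := by
      apply mul_self_lt_mul_self hR0 hcon
    have h2 : ((h : ℝ) * L) * (h * L) ≤ (h * L) * b := by gcongr
    nlinarith
  have hyh : (h : ℝ) ≤ y := by
    rw [hy, le_div_iff₀ hL0]
    exact hhLR
  have hy1 : 1 ≤ y := hh1.trans hyh
  have hyb : y ≤ b := by
    have h1 : R ≤ b := by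
      by_contra hcon
      push Not at hcon
      have h1 : (b : ℝ) * b < R * R := mul_self_lt_mul_self hb0.le hcon
      have h2 : ((h : ℝ) * L) * b ≤ b * b := by gcongr
      nlinarith
    have h2 : y ≤ R := by
      rw [← hyL]
      nlinarith
    linarith
  obtain ⟨d, hd⟩ : ∃ d : ℕ, d = ⌈y⌉₊ := ⟨_, rfl⟩
  have hd1 : 1 ≤ d := by rw [hd]; exact Nat.one_le_ceil_iff.2 (by linarith)
  have hd0 : (0 : ℝ) < d := by exact_mod_cast hd1
  have hyd : y ≤ d := by rw [hd]; exact Nat.le_ceil _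
  have hdy : (d : ℝ) ≤ 2 * y := by
    have := Nat.ceil_lt_add_one (show (0 : ℝ) ≤ y by linarith)
    rw [hd]
    linarith
  have hdb : d ≤ b := by
    rw [hd]
    exact Nat.ceil_le.2 hyb
  have hbL : b < 2 ^ L := by rw [hL]; exact Nat.lt_pow_succ_log_self (by norm_num) b
  have hdL : d ≤ 2 ^ L := hdb.trans hbL.le
  obtain ⟨t, ht1, ht2⟩ : ∃ t : ℕ, b ≤ d * t ∧ d * t < b + d := by
    refine ⟨(b + d - 1) / d, ?_, ?_⟩
    · have h1 := Nat.div_add_mod (b + d - 1) d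
      have h2 := Nat.mod_lt (b + d - 1) (show 0 < d by omega)
      omega
    · have h1 : d * ((b + d - 1) / d) ≤ b + d - 1 := Nat.mul_div_le _ _
      omega
  have hkq : k ≤ (2 ^ t) ^ d := by
    rw [← pow_mul]
    exact hkb.trans (Nat.pow_le_pow_right (by norm_num) (by rw [mul_comm]; exact ht1))
  refine ⟨16 * d ^ 3 * (2 ^ t) ^ 2, (d * 2 ^ t) ^ d,
    4 + 3 * h + 3 * h * (4 + 3 * L + 2 * t) + 3 * (L * d) + 3 * d, ?_, ?_,
    maskProp_vector k d (2 ^ t) hd1 (Nat.one_le_pow _ _ (by norm_num)) hkq, ?_, ?_⟩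
  · exact Nat.succ_le_of_lt (by positivity)
  · exact hkq.trans (Nat.pow_le_pow_left (Nat.le_mul_of_pos_left _ hd1) _)
  · have h1 : 16 * d ^ 3 * (2 ^ t) ^ 2 ≤ 2 ^ (4 + 3 * L + 2 * t) := by
      calc 16 * d ^ 3 * (2 ^ t) ^ 2 ≤ 2 ^ 4 * (2 ^ L) ^ 3 * (2 ^ t) ^ 2 := by
            gcongr
            norm_num
        _ = 2 ^ (4 + 3 * L + 2 * t) := by
            rw [pow_add, pow_add, ← pow_mul, ← pow_mul, mul_comm L 3, mul_comm t 2]
    have h2 : (d * 2 ^ t) ^ d ≤ 2 ^ (L * d) * 2 ^ d * 2 ^ b := by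
      calc (d * 2 ^ t) ^ d = d ^ d * 2 ^ (d * t) := by rw [mul_pow, ← pow_mul, mul_comm t d]
        _ ≤ (2 ^ L) ^ d * 2 ^ (b + d) := by
            gcongr
            norm_num
        _ = 2 ^ (L * d) * 2 ^ d * 2 ^ b := by rw [← pow_mul, pow_add]; ring
    have h5 : 5 ^ h ≤ 2 ^ (3 * h) := by
      rw [pow_mul]
      exact Nat.pow_le_pow_left (by norm_num) h
    have h6 : (2 ^ b) ^ 3 ≤ (2 * k) ^ 3 := Nat.pow_le_pow_left hbk 3
    calc 2 * 5 ^ h * k ^ 2 * ((16 * d ^ 3 * (2 ^ t) ^ 2) ^ h * (d * 2 ^ t) ^ d) ^ 3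
        ≤ 2 * 2 ^ (3 * h) * k ^ 2 *
          ((2 ^ (4 + 3 * L + 2 * t)) ^ h * (2 ^ (L * d) * 2 ^ d * 2 ^ b)) ^ 3 := by
          gcongr
      _ = 2 * 2 ^ (3 * h) * k ^ 2 * (2 ^ (4 + 3 * L + 2 * t)) ^ (3 * h) *
          (2 ^ (L * d)) ^ 3 * (2 ^ d) ^ 3 * (2 ^ b) ^ 3 := by
          rw [mul_comm 3 h, pow_mul _ h 3]
          ring
      _ ≤ 2 * 2 ^ (3 * h) * k ^ 2 * (2 ^ (4 + 3 * L + 2 * t)) ^ (3 * h) *
          (2 ^ (L * d)) ^ 3 * (2 ^ d) ^ 3 * (2 * k) ^ 3 := Nat.mul_le_mul_left _ h6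
      _ = k ^ 5 * 2 ^ (4 + 3 * h + 3 * h * (4 + 3 * L + 2 * t) + 3 * (L * d) + 3 * d) := by
          rw [pow_add 2 (4 + 3 * h + 3 * h * (4 + 3 * L + 2 * t) + 3 * (L * d)) (3 * d),
            pow_add 2 (4 + 3 * h + 3 * h * (4 + 3 * L + 2 * t)) (3 * (L * d)),
            pow_add 2 (4 + 3 * h) (3 * h * (4 + 3 * L + 2 * t)), pow_add 2 4 (3 * h),
            ← pow_mul 2 (4 + 3 * L + 2 * t) (3 * h), ← pow_mul 2 (L * d) 3, ← pow_mul 2 d 3,
            mul_comm (4 + 3 * L + 2 * t) (3 * h), mul_comm (L * d) 3, mul_comm d 3]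
          ring
  · have e1 : (d : ℝ) * t ≤ b + d := by exact_mod_cast ht2.le
    have e2 : (h : ℝ) * t ≤ R + h := by
      have h1 : (d : ℝ) * (h * t) ≤ d * (R + h) := by
        have h2 : (h : ℝ) * b ≤ d * R := by
          rw [← hy2]
          gcongr
        nlinarith
      exact le_of_mul_le_mul_left h1 hd0
    have e3 : (L : ℝ) * d ≤ 2 * R := by
      calc (L : ℝ) * d ≤ L * (2 * y) := by gcongr
        _ = 2 * (y * L) := by ring
        _ = 2 * R := by rw [hyL]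
    have e4 : (d : ℝ) ≤ 2 * R := by nlinarith
    push_cast
    nlinarith

/-- **The bound.** -/
theorem exists_small_program (h k : ℕ) (hh : 1 ≤ h) (hk : 2 ≤ k) (b L : ℕ)
    (hb : b = Nat.clog 2 k) (hL : L = Nat.log 2 b + 1) :
    ∃ B : NBP h k, B.Solves ∧ B.IsThrifty ∧ B.Unambiguous ∧
      (Fintype.card B.State : ℝ) ≤
        (k : ℝ) ^ 5 * 2 ^ (61 * h + 77 * Real.sqrt (h * b * L)) := by
  obtain ⟨R, hR⟩ : ∃ R : ℝ, R = Real.sqrt (h * b * L) := ⟨_, rfl⟩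
  have hb1 : 1 ≤ b := by rw [hb]; exact Nat.clog_pos (by norm_num) hk
  have hL1 : 1 ≤ L := by omega
  have hR0 : 0 ≤ R := by rw [hR]; positivity
  have hR2 : R * R = h * b * L := by rw [hR]; exact Real.mul_self_sqrt (by positivity)
  have hk1 : (1 : ℝ) ≤ k := by exact_mod_cast (by omega : 1 ≤ k)
  have hh0 : (0 : ℝ) ≤ h := Nat.cast_nonneg h
  rw [← hR]
  rcases Nat.le_total (h * L) b with hcase | hcase
  · obtain ⟨lam, M₀, E, h1, h2, h3, h4, h5⟩ := regime_vector h k hh hk b L hb hL R hR hcase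
    obtain ⟨B, hB1, hB2, hB3, hB4⟩ := exists_program h k lam M₀ hh hk h1 h2 h3
    refine ⟨B, hB1, hB2, hB3, ?_⟩
    have h6 : (Fintype.card B.State : ℝ) ≤ (k : ℝ) ^ 5 * 2 ^ E := by exact_mod_cast hB4.trans h4
    refine h6.trans ?_
    gcongr
    rw [← Real.rpow_natCast]
    exact Real.rpow_le_rpow_of_exponent_le (by norm_num) (by linarith)
  · obtain ⟨lam, M₀, E, h1, h2, h3, h4, h5⟩ := regime_code h k hh hk b L hb hL R hR
    obtain ⟨B, hB1, hB2, hB3, hB4⟩ := exists_program h k lam M₀ hh hk h1 h2 h3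
    refine ⟨B, hB1, hB2, hB3, ?_⟩
    have h6 : (Fintype.card B.State : ℝ) ≤ 2 ^ E := by exact_mod_cast hB4.trans h4
    have hbR : (b : ℝ) ≤ R := by
      have hc : (b : ℝ) ≤ h * L := by exact_mod_cast hcase
      by_contra hcon
      push Not at hcon
      have h1 : R * R < (b : ℝ) * b := mul_self_lt_mul_self hR0 hcon
      have h2 : (b : ℝ) * b ≤ b * (h * L) := by gcongr
      nlinarith
    calc (Fintype.card B.State : ℝ) ≤ 2 ^ E := h6
      _ = 2 ^ (E : ℝ) := (Real.rpow_natCast _ _).symm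
      _ ≤ 2 ^ (61 * (h : ℝ) + 77 * R) :=
          Real.rpow_le_rpow_of_exponent_le (by norm_num) (by linarith)
      _ = 1 * 2 ^ (61 * (h : ℝ) + 77 * R) := (one_mul _).symm
      _ ≤ (k : ℝ) ^ 5 * 2 ^ (61 * (h : ℝ) + 77 * R) := by
          gcongr
          exact one_le_pow₀ hk1

end Pool.Agent.Helper7.TEP
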