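import Mathlib

/-!
# Words with few agreements (Gilbert–Varshamov)
-/

namespace Pool.Agent.Helper7.TEP

open Finset

theorem card_prescribed (d q : ℕ) (c : Fin d → Fin q) (T : Finset (Fin d)) :
    (univ.filter (fun c' : Fin d → Fin q => ∀ i ∈ T, c i = c' i)).card = q ^ (d - T.card) := by
  classical
  have h1 : (univ.filter (fun c' : Fin d → Fin q => ∀ i ∈ T, c i = c' i)) =
      Fintype.piFinset (fun i => if i ∈ T then {c i} else (univ : Finset (Fin q))) := by
    ext c'
    simp only [mem_filter, mem_univ, true_and, Fintype.mem_piFinset]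
    refine forall_congr' fun i => ?_
    by_cases hi : i ∈ T
    · simp [hi, eq_comm]
    · simp [hi]
  rw [h1, Fintype.card_piFinset]
  have h2 : ∀ i : Fin d, (if i ∈ T then {c i} else (univ : Finset (Fin q))).card =
      if i ∈ T then 1 else q := by
    intro i
    by_cases hi : i ∈ T <;> simp [hi]
  rw [Finset.prod_congr rfl (fun i _ => h2 i), Finset.prod_ite]
  simp only [Finset.prod_const_one, one_mul, Finset.prod_const]
  congr 1
  have h3 : (univ.filter (fun i => i ∉ T)) = univ \ T := by
    ext i; simp
  rw [h3, Finset.card_sdiff_of_subset (Finset.subset_univ T)]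
  simp

/-- The number of words which agree with `c` in at least `t` places. -/
theorem card_agree_le (d q t : ℕ) (c : Fin d → Fin q) :
    (univ.filter (fun c' : Fin d → Fin q =>
      t ≤ (univ.filter (fun i => c i = c' i)).card)).card ≤ 2 ^ d * q ^ (d - t) := by
  classical
  have hsub : (univ.filter (fun c' : Fin d → Fin q =>
      t ≤ (univ.filter (fun i => c i = c' i)).card)) ⊆
      ((univ : Finset (Finset (Fin d))).filter (fun T => T.card = t)).biUnion
        (fun T => univ.filter (fun c' : Fin d → Fin q => ∀ i ∈ T, c i = c' i)) := by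
    intro c' hc'
    rw [mem_filter] at hc'
    obtain ⟨T, hT, hTc⟩ := Finset.exists_subset_card_eq hc'.2
    rw [mem_biUnion]
    refine ⟨T, by simp [hTc], ?_⟩
    rw [mem_filter]
    refine ⟨mem_univ _, fun i hi => ?_⟩
    have := hT hi
    rw [mem_filter] at this
    exact this.2
  calc _ ≤ _ := card_le_card hsub
    _ ≤ ∑ T ∈ (univ : Finset (Finset (Fin d))).filter (fun T => T.card = t),
        (univ.filter (fun c' : Fin d → Fin q => ∀ i ∈ T, c i = c' i)).card := card_biUnion_le
    _ = ∑ T ∈ (univ : Finset (Finset (Fin d))).filter (fun T => T.card = t), q ^ (d - t) := by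
        refine Finset.sum_congr rfl fun T hT => ?_
        rw [card_prescribed, (mem_filter.1 hT).2]
    _ = ((univ : Finset (Finset (Fin d))).filter (fun T => T.card = t)).card * q ^ (d - t) := by
        rw [Finset.sum_const, smul_eq_mul]
    _ ≤ 2 ^ d * q ^ (d - t) := by
        refine Nat.mul_le_mul_right _ ?_
        calc _ ≤ (univ : Finset (Finset (Fin d))).card := card_filter_le _ _
          _ = 2 ^ d := by simp

/-- A code of `k` words of length `d` over an alphabet with `q` letters, any two of which agree in
at most `τ` places. -/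
theorem exists_code (d q τ : ℕ) : ∀ k : ℕ, k * (2 ^ d * q ^ (d - (τ + 1))) ≤ q ^ d → 1 ≤ q →
    ∃ c : Fin k → Fin d → Fin q, ∀ a b, a ≠ b →
      (univ.filter (fun i => c a i = c b i)).card ≤ τ := by
  classical
  intro k
  induction k with
  | zero =>
    intro _ _
    exact ⟨fun a => a.elim0, fun a => a.elim0⟩
  | succ k ih =>
    intro hk hq
    obtain ⟨c, hc⟩ := ih (le_trans (Nat.mul_le_mul_right _ (Nat.le_succ k)) hk) hq
    have hB : 0 < 2 ^ d * q ^ (d - (τ + 1)) := by positivity
    obtain ⟨w, hw⟩ : ∃ w : Fin d → Fin q, ∀ a, (univ.filter (fun i => c a i = w i)).card ≤ τ := by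
      by_contra hcon
      push Not at hcon
      have hsub : (univ : Finset (Fin d → Fin q)) ⊆ (univ : Finset (Fin k)).biUnion
          (fun a => univ.filter (fun c' : Fin d → Fin q =>
            τ + 1 ≤ (univ.filter (fun i => c a i = c' i)).card)) := by
        intro w _
        obtain ⟨a, ha⟩ := hcon w
        rw [mem_biUnion]
        exact ⟨a, mem_univ _, by rw [mem_filter]; exact ⟨mem_univ _, ha⟩⟩
      have h1 := card_le_card hsub
      have h2 : ((univ : Finset (Fin k)).biUnion
          (fun a => univ.filter (fun c' : Fin d → Fin q =>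
            τ + 1 ≤ (univ.filter (fun i => c a i = c' i)).card))).card ≤
          k * (2 ^ d * q ^ (d - (τ + 1))) := by
        calc _ ≤ ∑ a : Fin k, (univ.filter (fun c' : Fin d → Fin q =>
            τ + 1 ≤ (univ.filter (fun i => c a i = c' i)).card)).card := card_biUnion_le
          _ ≤ ∑ _a : Fin k, 2 ^ d * q ^ (d - (τ + 1)) :=
              Finset.sum_le_sum fun a _ => card_agree_le d q (τ + 1) (c a)
          _ = k * (2 ^ d * q ^ (d - (τ + 1))) := by simp
      have h3 : (univ : Finset (Fin d → Fin q)).card = q ^ d := by simp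
      rw [h3] at h1
      have h4 : (k + 1) * (2 ^ d * q ^ (d - (τ + 1))) ≤ k * (2 ^ d * q ^ (d - (τ + 1))) :=
        hk.trans (h1.trans h2)
      nlinarith
    refine ⟨Fin.snoc (α := fun _ => Fin d → Fin q) c w, ?_⟩
    intro a b hab
    induction a using Fin.lastCases with
    | last =>
      induction b using Fin.lastCases with
      | last => exact absurd rfl hab
      | cast b =>
        simp only [Fin.snoc_last, Fin.snoc_castSucc]
        have := hw b
        simpa only [eq_comm] using this
    | cast a =>
      induction b using Fin.lastCases with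
      | last =>
        simp only [Fin.snoc_last, Fin.snoc_castSucc]
        exact hw a
      | cast b =>
        simp only [Fin.snoc_castSucc]
        exact hc a b (fun h => hab (by rw [h]))

end Pool.Agent.Helper7.TEP
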