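import Pool.Agent.Helper6.ThriftyMaskProp
import Pool.Agent.Helper7.TEP.Code

/-!
# Masks from codes

A mask with constant blow-up: the content is `(j, y)` with `j < α` and `y` a vector modulo `m`,
hidden in `(j - |y|², y)`; the values are words of a code with large distance.
-/

namespace Pool.Agent.Helper7.TEP

open Finset Pool.Agent.Helper6.TreeEval

theorem sum_sq_lift {d m : ℕ} (y y' y'' : Fin d → ZMod m) (δ : Fin d → ℤ)
    (h1 : ∀ i, y' i = y i + δ i) (h2 : ∀ i, y'' i = y i - δ i) :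
    ∑ i, (y' i) ^ 2 + ∑ i, (y'' i) ^ 2 = 2 * ∑ i, (y i) ^ 2 + ((2 * ∑ i, (δ i) ^ 2 : ℤ) : ZMod m) := by
  push_cast
  rw [← Finset.sum_add_distrib, Finset.mul_sum, Finset.mul_sum, ← Finset.sum_add_distrib]
  refine Finset.sum_congr rfl fun i _ => ?_
  rw [h1 i, h2 i]
  ring

theorem core {d q k : ℕ} (hd : 1 ≤ d) (hq : 1 ≤ q) (c : Fin k → Fin d → Fin q)
    (hc : ∀ a b, a ≠ b → 2 * (univ.filter (fun i => c a i = c b i)).card ≤ d)
    (m : ℕ) (hm : m = 2 * d * q ^ 2)
    (j j' j'' : ℕ) (hj : j < (d + 1) / 2) (hj' : j' < (d + 1) / 2) (hj'' : j'' < (d + 1) / 2)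
    (y y' y'' : Fin d → ZMod m) (a a' : Fin k)
    (e1 : (j : ZMod m) - ∑ i, (y i) ^ 2 = ((j' : ℕ) : ZMod m) - ∑ i, (y' i) ^ 2)
    (e2 : (j' : ZMod m) - ∑ i, (y' i) ^ 2 = ((j'' : ℕ) : ZMod m) - ∑ i, (y'' i) ^ 2)
    (f1 : ∀ i, y i + ((c a i : ℕ) : ZMod m) = y' i + ((c a' i : ℕ) : ZMod m))
    (f2 : ∀ i, y' i + 2 • ((c a' i : ℕ) : ZMod m) +
      -(2 • ((c a i : ℕ) : ZMod m)) = y'' i) :
    a' = a ∧ j' = j ∧ j'' = j ∧ y' = y ∧ y'' = y := by
  classical
  set δ : Fin d → ℤ := fun i => ((c a i : ℕ) : ℤ) - ((c a' i : ℕ) : ℤ) with hδ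
  have g1 : ∀ i, y' i = y i + (δ i : ZMod m) := by
    intro i
    have := f1 i
    simp only [hδ]
    push_cast
    linear_combination -this
  have g2 : ∀ i, y'' i = y i - (δ i : ZMod m) := by
    intro i
    have h := f2 i
    rw [← h, g1 i]
    simp only [hδ, nsmul_eq_mul]
    push_cast
    ring
  have g3 := sum_sq_lift y y' y'' δ g1 g2
  have g4 : (((j' : ℤ) + j'' - 2 * j - 2 * ∑ i, (δ i) ^ 2 : ℤ) : ZMod m) = 0 := by
    push_cast at g3 ⊢
    linear_combination (-2 : ZMod m) * e1 - e2 + g3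
  rw [ZMod.intCast_zmod_eq_zero_iff_dvd] at g4
  have hα1 : (d + 1) / 2 ≤ d := by omega
  have hqq : q ^ 2 ≥ 1 := Nat.one_le_pow _ _ hq
  have hmα : (d + 1) / 2 ≤ m := by
    rw [hm]
    nlinarith
  have hcast : ∀ u v : ℕ, u < (d + 1) / 2 → v < (d + 1) / 2 → (u : ZMod m) = (v : ZMod m) → u = v := by
    intro u v hu hv huv
    rw [ZMod.natCast_eq_natCast_iff', Nat.mod_eq_of_lt (by omega), Nat.mod_eq_of_lt (by omega)] at huv
    exact huv
  by_cases haa : a' = a
  · have hδ0 : ∀ i, δ i = 0 := by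
      intro i
      simp only [hδ, haa, sub_self]
    have hy' : y' = y := by
      funext i
      rw [g1 i, hδ0 i]
      simp
    have hy'' : y'' = y := by
      funext i
      rw [g2 i, hδ0 i]
      simp
    rw [hy'] at e1 e2
    rw [hy''] at e2
    have k1 : (j' : ZMod m) = j := by linear_combination -e1
    have k2 : (j'' : ZMod m) = j := by linear_combination -e1 - e2
    exact ⟨haa, hcast _ _ hj' hj k1, hcast _ _ hj'' hj k2, hy', hy''⟩
  · exfalso
    -- the distance
    have hagree := hc a a' (fun h => haa h.symm)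
    have hlow : ((d : ℤ) + 1) / 2 ≤ ∑ i, (δ i) ^ 2 := by
      have h1 : (univ.filter (fun i => ¬ c a i = c a' i)).card +
          (univ.filter (fun i => c a i = c a' i)).card = d := by
        have := Finset.card_filter_add_card_filter_not (s := (univ : Finset (Fin d)))
          (fun i => c a i = c a' i)
        rw [add_comm]
        simpa using this
      have h2 : ((univ.filter (fun i => ¬ c a i = c a' i)).card : ℤ) ≤ ∑ i, (δ i) ^ 2 := by
        calc ((univ.filter (fun i => ¬ c a i = c a' i)).card : ℤ)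
            = ∑ i ∈ univ.filter (fun i => ¬ c a i = c a' i), (1 : ℤ) := by simp
          _ ≤ ∑ i ∈ univ.filter (fun i => ¬ c a i = c a' i), (δ i) ^ 2 := by
              refine Finset.sum_le_sum fun i hi => ?_
              have hne : δ i ≠ 0 := by
                intro h0
                rw [mem_filter] at hi
                apply hi.2
                simp only [hδ] at h0
                exact Fin.ext (by omega)
              have : 0 < (δ i) ^ 2 := by positivity
              omega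
          _ ≤ ∑ i, (δ i) ^ 2 := by
              refine Finset.sum_le_sum_of_subset_of_nonneg (Finset.subset_univ _) ?_
              intro i _ _
              positivity
      omega
    have hup : ∑ i, (δ i) ^ 2 ≤ d * ((q : ℤ) - 1) ^ 2 := by
      calc ∑ i, (δ i) ^ 2 ≤ ∑ _i : Fin d, ((q : ℤ) - 1) ^ 2 := by
            refine Finset.sum_le_sum fun i _ => ?_
            have ha := (c a i).2
            have ha' := (c a' i).2
            have hb1 : δ i ≤ (q : ℤ) - 1 := by simp only [hδ]; omega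
            have hb2 : -((q : ℤ) - 1) ≤ δ i := by simp only [hδ]; omega
            exact sq_le_sq' hb2 hb1
        _ = d * ((q : ℤ) - 1) ^ 2 := by simp
    set D : ℤ := ∑ i, (δ i) ^ 2 with hD
    have hneg : (j' : ℤ) + j'' - 2 * j - 2 * D < 0 := by omega
    have hmz : (m : ℤ) = 2 * d * (q : ℤ) ^ 2 := by rw [hm]; push_cast; ring
    have hbig : -(m : ℤ) < (j' : ℤ) + j'' - 2 * j - 2 * D := by
      have h1 : 2 * ((d : ℤ) * ((q : ℤ) - 1) ^ 2) + 2 * ((d : ℤ) * (2 * (q : ℤ) - 1)) = m := by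
        rw [hmz]
        ring
      have h2 : (d : ℤ) ≤ (d : ℤ) * (2 * (q : ℤ) - 1) := by
        have : (1 : ℤ) ≤ 2 * (q : ℤ) - 1 := by omega
        nlinarith
      have h3 : (j : ℤ) < d := by omega
      have h4 : (0 : ℤ) ≤ j' := by positivity
      have h5 : (0 : ℤ) ≤ j'' := by positivity
      linarith
    obtain ⟨t, ht⟩ := g4
    have hm0 : (0 : ℤ) < m := by rw [hmz]; positivity
    rw [ht] at hneg hbig
    have ht0 : t < 0 := by
      by_contra hcon
      push Not at hcon
      nlinarith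
    have ht1 : -1 < t := by
      by_contra hcon
      push Not at hcon
      nlinarith
    omega

/-- **The mask.** A code of `k` words of length `d` over an alphabet of size `q` in which different
words agree in at most half of the places gives masks with blow-up `8 q²`. -/
theorem maskProp_code (k d q : ℕ) (hd : 1 ≤ d) (hq : 1 ≤ q) (c : Fin k → Fin d → Fin q)
    (hc : ∀ a b, a ≠ b → 2 * (univ.filter (fun i => c a i = c b i)).card ≤ d) :
    MaskProp k (8 * q ^ 2) ((d + 1) / 2 * (2 * d * q ^ 2) ^ d) := by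
  classical
  intro M hM X _ hX
  set m : ℕ := 2 * d * q ^ 2 with hm
  set α : ℕ := (d + 1) / 2 with hα
  have hm0 : 0 < m := by rw [hm]; positivity
  have hα0 : 0 < α := by omega
  set K : ℕ := α * m ^ d with hK
  have hK0 : 0 < K := by positivity
  set t : ℕ := M / K + 1 with ht
  have : NeZero m := ⟨hm0.ne'⟩
  have : NeZero t := ⟨by rw [ht]; exact Nat.succ_ne_zero _⟩
  have hcardY : Fintype.card (Fin α × (Fin d → ZMod m) × Fin t) = K * t := by
    simp only [Fintype.card_prod, Fintype.card_fin, Fintype.card_fun, ZMod.card, hK]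
    ring
  have hXK : Fintype.card X ≤ Fintype.card (Fin α × (Fin d → ZMod m) × Fin t) := by
    rw [hcardY, ht]
    have h1 := Nat.div_add_mod M K
    have h2 := Nat.mod_lt M hK0
    nlinarith
  obtain ⟨ι⟩ := Function.Embedding.nonempty_of_card_le hXK
  refine ⟨ZMod m × (Fin d → ZMod m) × ZMod t, inferInstance, inferInstance,
    fun x => ((((ι x).1 : ℕ) : ZMod m) - ∑ i, ((ι x).2.1 i) ^ 2, (ι x).2.1,
      ((((ι x).2.2 : Fin t) : ℕ) : ZMod t)),
    fun a => (0, fun i => ((c a i : ℕ) : ZMod m), 0), ?_, ?_⟩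
  · have hc1 : Fintype.card (ZMod m × (Fin d → ZMod m) × ZMod t) = m * (m ^ d * t) := by
      simp only [Fintype.card_prod, Fintype.card_fun, ZMod.card, Fintype.card_fin]
    rw [hc1]
    have h1 : m ≤ 4 * q ^ 2 * α := by
      have h2 : d ≤ 2 * α := by omega
      rw [hm]
      nlinarith [Nat.zero_le (q ^ 2)]
    have h3 : K * t ≤ 2 * M := by
      rw [ht]
      have h4 : K * (M / K) ≤ M := Nat.mul_div_le M K
      nlinarith
    calc m * (m ^ d * t) ≤ (4 * q ^ 2 * α) * (m ^ d * t) := Nat.mul_le_mul_right _ h1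
      _ = 4 * q ^ 2 * (K * t) := by rw [hK]; ring
      _ ≤ 4 * q ^ 2 * (2 * M) := Nat.mul_le_mul_left _ h3
      _ = 8 * q ^ 2 * M := by ring
  · intro x x' x'' a a' h1 h2
    simp only [Prod.mk_add_mk, Prod.mk.injEq, add_zero] at h1
    obtain ⟨h1a, h1b, h1c⟩ := h1
    simp only [Prod.smul_mk, Prod.neg_mk, Prod.mk_add_mk, Prod.mk.injEq, smul_zero, neg_zero,
      add_zero] at h2
    obtain ⟨h2a, h2b, h2c⟩ := h2
    have f1 : ∀ i, (ι x).2.1 i + ((c a i : ℕ) : ZMod m) = (ι x').2.1 i + ((c a' i : ℕ) : ZMod m) :=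
      fun i => congrFun h1b i
    have f2 : ∀ i, (ι x').2.1 i + 2 • ((c a' i : ℕ) : ZMod m) + -(2 • ((c a i : ℕ) : ZMod m)) =
        (ι x'').2.1 i := fun i => congrFun h2b i
    obtain ⟨haa, hj', hj'', hy', hy''⟩ := core hd hq c hc m hm ((ι x).1 : ℕ) ((ι x').1 : ℕ)
      ((ι x'').1 : ℕ) (ι x).1.2 (ι x').1.2 (ι x'').1.2 _ _ _ a a' h1a h2a f1 f2
    have hr : ∀ u v : Fin t, ((u : ℕ) : ZMod t) = ((v : ℕ) : ZMod t) → u = v := by
      intro u v huv
      rw [ZMod.natCast_eq_natCast_iff', Nat.mod_eq_of_lt u.2, Nat.mod_eq_of_lt v.2] at huv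
      exact Fin.ext huv
    have hr1 := hr _ _ h1c
    have hr2 := hr _ _ h2c
    refine ⟨ι.injective ?_, ι.injective ?_, haa⟩
    · exact Prod.ext (Fin.ext hj') (Prod.ext hy' hr1.symm)
    · exact Prod.ext (Fin.ext hj'') (Prod.ext hy'' (hr2.symm.trans hr1.symm))

end Pool.Agent.Helper7.TEP
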